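import Pool.Agent.Lib.MP_ba0fa5_ag.AA.IfaceA

/-!
MP_ba0fa5_ag, Theorem A, module EXPAND.
-/

set_option autoImplicit false

namespace Pool.Agent.Lib.MP_ba0fa5_ag.AA.H58

open scoped Classical
open Finset Pool.Agent.Lib.MP_ba0fa5_ag.AA

lemma dl_nonneg (l : ℕ) : 0 ≤ dl l := by
  unfold dl
  split_ifs <;> norm_num

lemma ws_nonneg (n : ℕ) : 0 ≤ ws n :=
  prod_nonneg fun l _ => pow_nonneg (dl_nonneg l) _

lemma fw_nonneg (n : ℕ) : 0 ≤ fw n := div_nonneg (ws_nonneg n) (Nat.cast_nonneg _)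

lemma cf_nonneg (t d : ℕ) : 0 ≤ cf t d := by
  unfold cf
  positivity

/-- numbers in a reduced class are rough -/
lemma rgh_of_modEq {W a n : ℕ} (ha : a.Coprime (primorial W)) (h : n ≡ a [MOD primorial W]) :
    Rgh W n := by
  intro l hl hln
  by_contra hle
  push Not at hle
  have h1 : l ∣ primorial W := by
    unfold primorial
    refine Finset.dvd_prod_of_mem (fun p => p) ?_
    rw [mem_filter, mem_range]
    exact ⟨by omega, hl⟩
  have h2 : n ≡ a [MOD l] := h.of_dvd h1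
  have h3 : l ∣ a := (Nat.ModEq.dvd_iff h2 dvd_rfl).1 hln
  have h4 := Nat.dvd_gcd h3 h1
  rw [ha] at h4
  exact hl.one_lt.ne' (Nat.dvd_one.1 h4)

lemma rgh_mul {W m n : ℕ} (hm : Rgh W m) (hn : Rgh W n) : Rgh W (m * n) := by
  intro l hl hd
  rcases (Nat.Prime.dvd_mul hl).1 hd with h | h
  · exact hm l hl h
  · exact hn l hl h

lemma rgh_dvd {W m n : ℕ} (hn : Rgh W n) (h : m ∣ n) : Rgh W m :=
  fun l hl hd => hn l hl (hd.trans h)

lemma coprime_neg {W c : ℕ} (hc : c.Coprime (primorial W)) :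
    ((primorial W - 1) * c).Coprime (primorial W) := by
  have hpos : 0 < primorial W := primorial_pos W
  refine Nat.Coprime.mul_left ?_ hc
  have h1 : (primorial W - 1) + 1 = primorial W := Nat.sub_add_cancel hpos
  conv_rhs => rw [← h1]
  exact (Nat.coprime_self_add_right.2 (Nat.coprime_one_right _))

/-- the members of the box -/
lemma box_facts {W c Z : ℕ} (hc : c.Coprime (primorial W)) (hZ : 2 ≤ Z)
    {q : ℕ × ℕ × ℕ × ℕ} (hq : q ∈ Box W c Z) :
    Rgh W (HH q) ∧ 1 ≤ HH q ∧ 1 ≤ bb q ∧ bb q ≤ 3 * Z ^ 300 := by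
  unfold Box BoxAll cls at hq
  simp only [mem_filter, mem_product, mem_Ioc] at hq
  obtain ⟨⟨⟨⟨x1, x2⟩, x3⟩, ⟨⟨u1, u2⟩, u3⟩, ⟨⟨v1, v2⟩, v3⟩, ⟨⟨k1, k2⟩, k3⟩⟩, -⟩ := hq
  have hZ1 : 1 ≤ Z := by omega
  refine ⟨?_, ?_, ?_, ?_⟩
  · unfold HH
    exact rgh_mul (rgh_mul (rgh_mul (rgh_of_modEq hc x3) (rgh_of_modEq hc u3))
      (rgh_of_modEq (coprime_neg hc) v3)) (rgh_of_modEq (Nat.coprime_one_left _) k3)
  · unfold HH
    have : 0 < q.1 * q.2.1 * q.2.2.1 * q.2.2.2 := by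
      have a1 : 0 < q.1 := by omega
      have a2 : 0 < q.2.1 := by omega
      have a3 : 0 < q.2.2.1 := by omega
      have a4 : 0 < q.2.2.2 := by omega
      positivity
    omega
  · unfold bb
    omega
  · unfold bb
    have e1 : Z ^ 3 ≤ Z ^ 300 := Nat.pow_le_pow_right hZ1 (by norm_num)
    have e2 : (Z ^ 10) ^ 3 ≤ Z ^ 300 := by
      rw [← pow_mul]
      exact Nat.pow_le_pow_right hZ1 (by norm_num)
    have e3 : (Z ^ 100) ^ 3 = Z ^ 300 := by rw [← pow_mul]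
    omega

/-- the set of primes of `n` in `(W, z]` -/
noncomputable def PP (W z n : ℕ) : Finset ℕ := n.primeFactors.filter (fun l => W < l ∧ l ≤ z)

lemma PP_prime {W z n l : ℕ} (h : l ∈ PP W z n) : l.Prime :=
  Nat.prime_of_mem_primeFactors (mem_filter.1 h).1

lemma prod_primeFactors {S : Finset ℕ} (hS : ∀ l ∈ S, l.Prime) :
    (∏ l ∈ S, l).primeFactors = S := Nat.primeFactors_prod hS

lemma totient_prod {S : Finset ℕ} (hS : ∀ l ∈ S, l.Prime) :
    (∏ l ∈ S, l).totient = ∏ l ∈ S, (l - 1) := by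
  have h1 := Nat.totient_mul_prod_primeFactors (∏ l ∈ S, l)
  rw [prod_primeFactors hS, mul_comm] at h1
  exact Nat.eq_of_mul_eq_mul_left (prod_pos fun l hl => (hS l hl).pos) h1

lemma Ph_eq (W z n : ℕ) : Ph W z n = ∑ S ∈ (PP W z n).powerset,
    (1 : ℝ) / ((∏ l ∈ S, l).totient : ℝ) := by
  have h1 : Ph W z n = ∏ l ∈ PP W z n, (1 + 1 / ((l : ℝ) - 1)) := by
    unfold Ph PP
    refine prod_congr rfl fun l hl => ?_
    have hp := PP_prime hl
    have h2 : (1 : ℝ) < l := by exact_mod_cast hp.one_lt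
    have h3 : (l : ℝ) - 1 ≠ 0 := by linarith
    have h4 : (l : ℝ) ≠ 0 := by linarith
    rw [inv_eq_one_div, div_eq_iff]
    · field_simp
      ring
    · intro h0
      rw [sub_eq_zero, eq_comm, div_eq_iff h4, one_mul] at h0
      exact h3 (by linarith)
  rw [h1, Finset.prod_one_add]
  refine sum_congr rfl fun S hS => ?_
  rw [mem_powerset] at hS
  have hS' : ∀ l ∈ S, l.Prime := fun l hl => PP_prime (hS hl)
  rw [totient_prod hS', Nat.cast_prod, one_div, ← prod_inv_distrib]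
  refine prod_congr rfl fun l hl => ?_
  rw [Nat.cast_sub (hS' l hl).one_lt.le, Nat.cast_one, one_div]

theorem expand : ExpandStmt := by
  intro W Z c hW hZ hc
  set N := 3 * Z ^ 300 with hN
  set I := (Icc 1 N ×ˢ Icc 1 N).filter (fun s : ℕ × ℕ => Rgh W s.1 ∧ Rgh W s.2) with hI
  set BB := Box W c Z ×ˢ Box W c Z with hBB
  let F : (ℕ × ℕ × ℕ × ℕ) × (ℕ × ℕ × ℕ × ℕ) → ℝ := fun p => fw (HH p.1) * fw (HH p.2)
  let C : (ℕ × ℕ × ℕ × ℕ) × (ℕ × ℕ × ℕ × ℕ) → ℕ × ℕ → Prop := fun p s =>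
    bb p.1 ≠ bb p.2 ∧ s.1 ∣ HH p.1 ∧ s.1 ∣ HH p.2 ∧
      ((s.1.lcm s.2 : ℕ) : ℤ) ∣ (bb p.1 : ℤ) - bb p.2
  have hF : ∀ p, 0 ≤ F p := fun p => mul_nonneg (fw_nonneg _) (fw_nonneg _)
  have hrhs : ∑ s ∈ I, cf s.1 s.2 * pairSum W c Z s.1 s.2 =
      ∑ p ∈ BB, ∑ s ∈ I, if C p s then cf s.1 s.2 * F p else 0 := by
    rw [sum_comm]
    refine sum_congr rfl fun s _ => ?_
    unfold pairSum
    rw [mul_sum, sum_filter]
  rw [hrhs]
  refine le_trans ?_ (sum_le_sum_of_subset_of_nonneg (filter_subset (fun p => bb p.1 ≠ bb p.2 ∧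
      (((HH p.1).gcd (HH p.2) : ℕ) : ℤ) ∣ (bb p.1 : ℤ) - bb p.2) BB) ?_)
  · refine sum_le_sum fun p hp => ?_
    obtain ⟨hpB, hne, hG⟩ := mem_filter.1 hp
    obtain ⟨hp1, hp2⟩ := mem_product.1 hpB
    obtain ⟨r1, a1, b1, c1⟩ := box_facts hc hZ hp1
    obtain ⟨r2, a2, b2, c2⟩ := box_facts hc hZ hp2
    set G := (HH p.1).gcd (HH p.2) with hGdef
    set n := ((bb p.1 : ℤ) - bb p.2).natAbs with hn
    have hn0 : n ≠ 0 := by
      intro h0
      rw [hn, Int.natAbs_eq_zero, sub_eq_zero] at h0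
      exact hne (by exact_mod_cast h0)
    have hnN : n ≤ N := by omega
    have hGn : G ∣ n := Int.natCast_dvd.1 hG
    have hGpos : 1 ≤ G := Nat.gcd_pos_of_pos_left _ (by omega)
    have hGN : G ≤ N := (Nat.le_of_dvd (Nat.pos_of_ne_zero hn0) hGn).trans hnN
    have hGr : Rgh W G := rgh_dvd r1 (Nat.gcd_dvd_left _ _)
    let f : Finset ℕ → ℕ × ℕ := fun S => (G, ∏ l ∈ S, l)
    have hPr : ∀ S ∈ (PP W (zz Z) n).powerset, ∀ l ∈ S, l.Prime := by
      intro S hS l hl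
      rw [mem_powerset] at hS
      exact PP_prime (hS hl)
    have hinj : Set.InjOn f ((PP W (zz Z) n).powerset : Set (Finset ℕ)) := by
      intro S hS S' hS' he
      have h1 : ∏ l ∈ S, l = ∏ l ∈ S', l := congrArg Prod.snd he
      rw [← prod_primeFactors (hPr S (mem_coe.1 hS)), h1, prod_primeFactors (hPr S' (mem_coe.1 hS'))]
    have hmem : ∀ S ∈ (PP W (zz Z) n).powerset, f S ∈ I ∧ C p (f S) := by
      intro S hS
      have hpr := hPr S hS
      rw [mem_powerset] at hS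
      have hd : (∏ l ∈ S, l) ∣ n := by
        refine Finset.prod_primes_dvd n (fun l hl => (hpr l hl).prime) fun l hl => ?_
        exact Nat.dvd_of_mem_primeFactors (mem_filter.1 (hS hl)).1
      have hpos : 1 ≤ ∏ l ∈ S, l := Nat.pos_of_ne_zero fun h0 => by
        rw [h0] at hd
        exact hn0 (Nat.eq_zero_of_zero_dvd hd)
      have hdN : ∏ l ∈ S, l ≤ N := (Nat.le_of_dvd (Nat.pos_of_ne_zero hn0) hd).trans hnN
      have hr : Rgh W (∏ l ∈ S, l) := by
        intro l hl hld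
        have : l ∈ (∏ l ∈ S, l).primeFactors :=
          Nat.mem_primeFactors.2 ⟨hl, hld, by omega⟩
        rw [prod_primeFactors hpr] at this
        exact (mem_filter.1 (hS this)).2.1
      refine ⟨?_, hne, Nat.gcd_dvd_left _ _, Nat.gcd_dvd_right _ _, ?_⟩
      · rw [hI, mem_filter, mem_product, mem_Icc, mem_Icc]
        exact ⟨⟨⟨hGpos, hGN⟩, ⟨hpos, hdN⟩⟩, hGr, hr⟩
      · exact Int.natCast_dvd.2 (Nat.lcm_dvd hGn hd)
    have h1 : ∑ S ∈ (PP W (zz Z) n).powerset, cf (f S).1 (f S).2 * F p ≤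
        ∑ s ∈ I, if C p s then cf s.1 s.2 * F p else 0 := by
      have h2 : ∑ S ∈ (PP W (zz Z) n).powerset, cf (f S).1 (f S).2 * F p =
          ∑ s ∈ (PP W (zz Z) n).powerset.image f, if C p s then cf s.1 s.2 * F p else 0 := by
        rw [sum_image (fun S hS S' hS' h => hinj (mem_coe.2 hS) (mem_coe.2 hS') h)]
        refine sum_congr rfl fun S hS => ?_
        rw [if_pos (hmem S hS).2]
      rw [h2]
      refine sum_le_sum_of_subset_of_nonneg ?_ ?_
      · intro s hs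
        obtain ⟨S, hS, rfl⟩ := mem_image.1 hs
        exact (hmem S hS).1
      · intro s _ _
        split_ifs
        · exact mul_nonneg (cf_nonneg _ _) (hF p)
        · exact le_rfl
    refine le_trans (le_of_eq ?_) h1
    unfold pairWt
    rw [← hGdef, ← hn, Ph_eq, mul_sum]
    refine sum_congr rfl fun S _ => ?_
    show _ = cf G (∏ l ∈ S, l) * (fw (HH p.1) * fw (HH p.2))
    unfold cf
    ring
  · intro p _ _
    refine sum_nonneg fun s _ => ?_
    split_ifs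
    · exact mul_nonneg (cf_nonneg _ _) (hF p)
    · exact le_rfl

end Pool.Agent.Lib.MP_ba0fa5_ag.AA.H58
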