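import Pool.Agent.Lib.MP_ba0fa5_ag.AA.H58.Expand

/-!
MP_ba0fa5_ag, Theorem A, module TERM.
-/

set_option autoImplicit false

namespace Pool.Agent.Lib.MP_ba0fa5_ag.AA.H58

open scoped Classical
open Finset Pool.Agent.Lib.MP_ba0fa5_ag.AA

/-! ### multiplicativity -/

lemma ws_eq (n : ℕ) : ws n = n.factorization.prod fun l k => dl l ^ k := by
  unfold ws Finsupp.prod
  rw [Nat.support_factorization]

lemma ws_mul {m n : ℕ} (hm : m ≠ 0) (hn : n ≠ 0) : ws (m * n) = ws m * ws n := by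
  rw [ws_eq, ws_eq, ws_eq, Nat.factorization_mul hm hn]
  exact Finsupp.prod_add_index' (fun l => pow_zero _) (fun l a b => pow_add _ _ _)

lemma fw_mul {m n : ℕ} (hm : m ≠ 0) (hn : n ≠ 0) (h : m.Coprime n) :
    fw (m * n) = fw m * fw n := by
  unfold fw
  rw [ws_mul hm hn, Nat.totient_mul h, Nat.cast_mul, mul_div_mul_comm]

lemma fw_HH {q : ℕ × ℕ × ℕ × ℕ} (h : Cop q) (h1 : q.1 ≠ 0) (h2 : q.2.1 ≠ 0) (h3 : q.2.2.1 ≠ 0)
    (h4 : q.2.2.2 ≠ 0) : fw (HH q) = fw q.1 * fw q.2.1 * fw q.2.2.1 * fw q.2.2.2 := by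
  obtain ⟨c1, c2, c3, c4, c5, c6⟩ := h
  unfold HH
  rw [fw_mul (mul_ne_zero (mul_ne_zero h1 h2) h3) h4
      ((Nat.Coprime.mul_left (Nat.Coprime.mul_left c3 c5) c6)),
    fw_mul (mul_ne_zero h1 h2) h3 (Nat.Coprime.mul_left c2 c4), fw_mul h1 h2 c1]

lemma tot_HH {q : ℕ × ℕ × ℕ × ℕ} (h : Cop q) : (HH q).totient =
    q.1.totient * (q.2.1 * q.2.2.1).totient * q.2.2.2.totient := by
  obtain ⟨c1, c2, c3, c4, c5, c6⟩ := h
  unfold HH
  rw [Nat.totient_mul (Nat.Coprime.mul_left (Nat.Coprime.mul_left c3 c5) c6), mul_assoc q.1,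
    Nat.totient_mul (Nat.Coprime.mul_right c1 c2)]

lemma tot_HH' {q : ℕ × ℕ × ℕ × ℕ} (h : Cop q) : (HH q).totient =
    q.1.totient * q.2.1.totient * q.2.2.1.totient * q.2.2.2.totient := by
  rw [tot_HH h, Nat.totient_mul h.2.2.2.1]
  ring

/-! ### products of sums -/

lemma sum_four (X U V K : Finset ℕ) (g : ℕ → ℝ) :
    ∑ q ∈ X ×ˢ U ×ˢ V ×ˢ K, g q.1 * g q.2.1 * g q.2.2.1 * g q.2.2.2 =
      (∑ n ∈ X, g n) * (∑ n ∈ U, g n) * (∑ n ∈ V, g n) * ∑ n ∈ K, g n := by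
  rw [sum_product]
  have h1 : ∀ x : ℕ, ∑ y ∈ U ×ˢ V ×ˢ K, g x * g y.1 * g y.2.1 * g y.2.2 =
      g x * ((∑ n ∈ U, g n) * (∑ n ∈ V, g n) * ∑ n ∈ K, g n) := by
    intro x
    rw [sum_product]
    have h2 : ∀ u : ℕ, ∑ y ∈ V ×ˢ K, g x * g u * g y.1 * g y.2 =
        g x * (g u * ((∑ n ∈ V, g n) * ∑ n ∈ K, g n)) := by
      intro u
      rw [sum_product, sum_mul_sum, mul_sum, mul_sum]
      refine sum_congr rfl fun v _ => ?_
      rw [mul_sum, mul_sum]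
      refine sum_congr rfl fun k _ => ?_
      ring
    simp only [h2]
    rw [← mul_sum, ← sum_mul]
    ring
  simp only [h1]
  rw [← sum_mul]
  ring

/-- `mass` is a product -/
lemma mass_eq {W c Z : ℕ} : mass W c Z =
    (∑ n ∈ cls W c Z (Z ^ 3), ws n / n) * (∑ n ∈ cls W c (Z ^ 10) ((Z ^ 10) ^ 3), ws n / n) *
    (∑ n ∈ cls W ((primorial W - 1) * c) (Z ^ 100) ((Z ^ 100) ^ 3), ws n / n) *
    ∑ n ∈ cls W 1 Z (Z ^ 3), ws n / n := by
  rw [← sum_four _ _ _ _ (fun n => ws n / n)]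
  unfold mass BoxAll
  refine sum_congr rfl fun q hq => ?_
  simp only [mem_product, cls, mem_filter, mem_Ioc] at hq
  obtain ⟨⟨⟨x1, -⟩, -⟩, ⟨⟨u1, -⟩, -⟩, ⟨⟨v1, -⟩, -⟩, ⟨⟨k1, -⟩, -⟩⟩ := hq
  have n1 : q.1 ≠ 0 := by omega
  have n2 : q.2.1 ≠ 0 := by omega
  have n3 : q.2.2.1 ≠ 0 := by omega
  have n4 : q.2.2.2 ≠ 0 := by omega
  unfold HH
  rw [ws_mul (mul_ne_zero (mul_ne_zero n1 n2) n3) n4, ws_mul (mul_ne_zero n1 n2) n3,
    ws_mul n1 n2]
  push_cast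
  rw [div_mul_div_comm, div_mul_div_comm, div_mul_div_comm]

lemma SS_nonneg {W Y : ℕ} (hW : 3 ≤ W) (hY : 1 ≤ Y) : 0 ≤ SS W Y := by
  unfold SS
  refine div_nonneg (Real.rpow_nonneg (div_nonneg ?_ ?_) _) (Nat.cast_nonneg _)
  · exact Real.log_nonneg (by exact_mod_cast hY)
  · exact Real.log_nonneg (by exact_mod_cast (by omega : 1 ≤ W))

/-- lower bound of the mass -/
lemma mass_ge {c0 : ℝ} (hc0 : 0 < c0) {W : ℕ} (hW : 3 ≤ W) {Y0 : ℕ}
    (hcl : ∀ Y a : ℕ, Y0 ≤ Y → a.Coprime (primorial W) →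
      c0 * SS W Y ≤ ∑ n ∈ cls W a Y (Y ^ 3), ws n / n) {Z c : ℕ} (hZ : Y0 ≤ Z) (hZ1 : 1 ≤ Z)
    (hc : c.Coprime (primorial W)) :
    c0 ^ 4 * (SS W Z * SS W (Z ^ 10) * SS W (Z ^ 100) * SS W Z) ≤ mass W c Z := by
  have e1 : Z ≤ Z ^ 10 := Nat.le_self_pow (by norm_num) Z
  have e2 : Z ≤ Z ^ 100 := Nat.le_self_pow (by norm_num) Z
  have h1 := hcl Z c hZ hc
  have h2 := hcl (Z ^ 10) c (hZ.trans e1) hc
  have h3 := hcl (Z ^ 100) ((primorial W - 1) * c) (hZ.trans e2) (coprime_neg hc)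
  have h4 := hcl Z 1 hZ (Nat.coprime_one_left _)
  have s1 := SS_nonneg hW hZ1
  have s2 := SS_nonneg hW (hZ1.trans e1)
  have s3 := SS_nonneg hW (hZ1.trans e2)
  rw [mass_eq]
  have g1 : 0 ≤ c0 * SS W Z := by positivity
  have g2 : 0 ≤ c0 * SS W (Z ^ 10) := by positivity
  have g3 : 0 ≤ c0 * SS W (Z ^ 100) := by positivity
  calc c0 ^ 4 * (SS W Z * SS W (Z ^ 10) * SS W (Z ^ 100) * SS W Z)
      = (c0 * SS W Z) * (c0 * SS W (Z ^ 10)) * (c0 * SS W (Z ^ 100)) * (c0 * SS W Z) := by ring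
    _ ≤ _ := by
      refine mul_le_mul (mul_le_mul (mul_le_mul h1 h2 g2 (g1.trans h1)) h3 g3
        (mul_nonneg (g1.trans h1) (g2.trans h2))) h4 g1
        (mul_nonneg (mul_nonneg (g1.trans h1) (g2.trans h2)) (g3.trans h3))

lemma coprime_of_rgh {W t : ℕ} (h : Rgh W t) : t.Coprime (primorial W) := by
  rw [Nat.coprime_iff_gcd_eq_one]
  by_contra hne
  obtain ⟨l, hl, hd⟩ := Nat.exists_prime_and_dvd hne
  have h1 := h l hl (hd.trans (Nat.gcd_dvd_left _ _))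
  have h2 : l ∣ primorial W := hd.trans (Nat.gcd_dvd_right _ _)
  unfold primorial at h2
  obtain ⟨p, hp, hlp⟩ := (Prime.dvd_finset_prod_iff hl.prime _).1 h2
  rw [mem_filter, mem_range] at hp
  have h3 := (Nat.prime_dvd_prime_iff_eq hl hp.2).1 hlp
  omega

lemma rgh_lcm {W t d : ℕ} (ht : Rgh W t) (hd : Rgh W d) : Rgh W (t.lcm d) := by
  intro l hl h
  exact rgh_mul ht hd l hl (h.trans (Nat.lcm_dvd_mul t d))

/-- `TZ` is small -/
lemma exists_TZ : ∃ Z0 : ℕ, ∀ Z : ℕ, Z0 ≤ Z → ((TZ Z : ℝ)) ^ 2 ≤ Real.log Z ^ 81 := by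
  have h1 := (Real.tendsto_log_atTop.comp tendsto_natCast_atTop_atTop).eventually_ge_atTop
    ((2 : ℝ) ^ 80)
  obtain ⟨Z0, hZ0⟩ := Filter.eventually_atTop.1 h1
  refine ⟨Z0 + 2, fun Z hZ => ?_⟩
  have h2 : (2 : ℝ) ^ 80 ≤ Real.log Z := hZ0 Z (by omega)
  have h3 : (Nat.log 2 Z : ℝ) ≤ 2 * Real.log Z := by
    have h4 := Real.natLog_le_logb Z 2
    have h5 : Real.logb (2 : ℕ) Z = Real.log Z / Real.log 2 := by
      rw [Real.logb, Nat.cast_ofNat]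
    rw [h5] at h4
    refine h4.trans ?_
    have h6 := Real.log_two_gt_d9
    rw [div_le_iff₀ (by linarith)]
    have h7 : 0 ≤ Real.log Z := le_trans (by positivity) h2
    nlinarith
  have h8 : 0 ≤ Real.log Z := le_trans (by positivity) h2
  unfold TZ
  push_cast
  calc ((Nat.log 2 Z : ℝ) ^ 40) ^ 2 = (Nat.log 2 Z : ℝ) ^ 80 := by rw [← pow_mul]
    _ ≤ (2 * Real.log Z) ^ 80 := pow_le_pow_left₀ (Nat.cast_nonneg _) h3 80
    _ = 2 ^ 80 * Real.log Z ^ 80 := by rw [mul_pow]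
    _ ≤ Real.log Z * Real.log Z ^ 80 := mul_le_mul_of_nonneg_right h2 (by positivity)
    _ = Real.log Z ^ 81 := by rw [pow_succ' (Real.log Z) 80]

/-! ### the sums over tuples -/

lemma tuple_bound (t : ℕ) (g : ℕ × ℕ × ℕ × ℕ → ℝ) (B : ℝ) (hB : 0 ≤ B)
    (h : ∀ s : ℕ × ℕ × ℕ × ℕ, Cop s → HH s = t → g s ≤ B) :
    ∑ s ∈ (t.divisors ×ˢ t.divisors ×ˢ t.divisors ×ˢ t.divisors).filter
      (fun s => Cop s ∧ HH s = t), g s ≤ (t.divisors.card : ℝ) ^ 4 * B := by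
  have h1 := Finset.sum_le_card_nsmul ((t.divisors ×ˢ t.divisors ×ˢ t.divisors ×ˢ
    t.divisors).filter (fun s => Cop s ∧ HH s = t)) g B (fun s hs => by
      obtain ⟨-, hs⟩ := mem_filter.1 hs
      exact h s hs.1 hs.2)
  refine h1.trans ?_
  rw [nsmul_eq_mul]
  refine mul_le_mul_of_nonneg_right ?_ hB
  have h2 : ((t.divisors ×ˢ t.divisors ×ˢ t.divisors ×ˢ t.divisors).filter
      (fun s => Cop s ∧ HH s = t)).card ≤ t.divisors.card ^ 4 := by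
    refine (card_filter_le _ _).trans ?_
    rw [card_product, card_product, card_product]
    apply le_of_eq
    ring
  exact_mod_cast h2

section aux

variable {W Z c t D : ℕ} {C : ℝ}

/-- bound for the sum over all `q` with `t | H` -/
lemma outer (hABT : AbtStmt) (hW : 3 ≤ W) (hZ1 : 1 ≤ Z) (hC : 0 < C)
    (hc : c.Coprime (primorial W)) (ht1 : 1 ≤ t)
    (key : ∀ Y s a r : ℕ, Z ≤ Y → s ∣ t → a.Coprime (primorial W) →
      ∑ n ∈ (cls W a Y (Y ^ 3)).filter (fun n => n ≡ r [MOD s]), fw n ≤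
        C * SS W Y / s.totient) :
    ∑ q ∈ (Box W c Z).filter (fun q => t ∣ HH q), fw (HH q) ≤
      (t.divisors.card : ℝ) ^ 4 *
        (C ^ 4 * (SS W Z * SS W (Z ^ 10) * SS W (Z ^ 100) * SS W Z) / t.totient) := by
  have e1 : Z ≤ Z ^ 10 := Nat.le_self_pow (by norm_num) Z
  have e2 : Z ≤ Z ^ 100 := Nat.le_self_pow (by norm_num) Z
  have s1 := SS_nonneg hW hZ1
  have s2 := SS_nonneg hW (hZ1.trans e1)
  have s3 := SS_nonneg hW (hZ1.trans e2)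
  have hfil : ∀ (X : Finset ℕ) (s : ℕ), X.filter (fun n => s ∣ n) =
      X.filter (fun n => n ≡ 0 [MOD s]) := by
    intro X s
    refine filter_congr fun n _ => ?_
    rw [Nat.modEq_zero_iff_dvd]
  have h := hABT (cls W c Z (Z ^ 3)) (cls W c (Z ^ 10) ((Z ^ 10) ^ 3))
    (cls W ((primorial W - 1) * c) (Z ^ 100) ((Z ^ 100) ^ 3)) (cls W 1 Z (Z ^ 3)) fw
    (fun s => C * SS W Z / s.totient) (fun s => C * SS W (Z ^ 10) / s.totient)
    (fun s => C * SS W (Z ^ 100) / s.totient) (fun s => C * SS W Z / s.totient) t ht1 fw_nonneg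
    (fun s => ⟨by positivity, by positivity, by positivity, by positivity⟩)
    (fun s hs => by rw [hfil]; exact key Z s c 0 le_rfl hs hc)
    (fun s hs => by rw [hfil]; exact key (Z ^ 10) s c 0 e1 hs hc)
    (fun s hs => by rw [hfil]; exact key (Z ^ 100) s _ 0 e2 hs (coprime_neg hc))
    (fun s hs => by rw [hfil]; exact key Z s 1 0 le_rfl hs (Nat.coprime_one_left _))
  have h2 : ∑ q ∈ (Box W c Z).filter (fun q => t ∣ HH q), fw (HH q) =
      ∑ q ∈ (cls W c Z (Z ^ 3) ×ˢ cls W c (Z ^ 10) ((Z ^ 10) ^ 3) ×ˢ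
        cls W ((primorial W - 1) * c) (Z ^ 100) ((Z ^ 100) ^ 3) ×ˢ
        cls W 1 Z (Z ^ 3)).filter (fun q => Cop q ∧ t ∣ HH q),
          fw q.1 * fw q.2.1 * fw q.2.2.1 * fw q.2.2.2 := by
    unfold Box BoxAll
    rw [filter_filter]
    refine sum_congr rfl fun q hq => ?_
    simp only [mem_filter, mem_product, cls, mem_Ioc] at hq
    obtain ⟨⟨⟨⟨x1, -⟩, -⟩, ⟨⟨u1, -⟩, -⟩, ⟨⟨v1, -⟩, -⟩, ⟨⟨k1, -⟩, -⟩⟩, hcop, -⟩ := hq
    exact fw_HH hcop (by omega) (by omega) (by omega) (by omega)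
  rw [h2]
  refine h.trans (tuple_bound t _ _ (by positivity) fun s hs hst => ?_)
  have h3 := tot_HH' hs
  rw [hst] at h3
  rw [h3]
  push_cast
  apply le_of_eq
  rw [div_mul_div_comm, div_mul_div_comm, div_mul_div_comm]
  congr 1
  ring

/-- bound for the sum over all `q` with `t | H`, `D | b - b₀` -/
lemma inner (hABS : AbsStmt) (hW : 3 ≤ W) (hZ1 : 1 ≤ Z) (hC : 0 < C)
    (hc : c.Coprime (primorial W)) (ht1 : 1 ≤ t) (hD1 : 1 ≤ D) (htD : t ∣ D)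
    (key : ∀ Y s a r : ℕ, Z ≤ Y → s ∣ t ∨ s = D → a.Coprime (primorial W) →
      ∑ n ∈ (cls W a Y (Y ^ 3)).filter (fun n => n ≡ r [MOD s]), fw n ≤
        C * SS W Y / s.totient) (b : ℤ) :
    ∑ q ∈ (Box W c Z).filter (fun q => t ∣ HH q ∧ (D : ℤ) ∣ (bb q : ℤ) - b), fw (HH q) ≤
      (t.divisors.card : ℝ) ^ 4 *
        (C ^ 4 * (SS W Z * SS W (Z ^ 10) * SS W (Z ^ 100) * SS W Z) /
          ((t.totient : ℝ) * D.totient)) := by
  have e1 : Z ≤ Z ^ 10 := Nat.le_self_pow (by norm_num) Z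
  have e2 : Z ≤ Z ^ 100 := Nat.le_self_pow (by norm_num) Z
  have s1 := SS_nonneg hW hZ1
  have s2 := SS_nonneg hW (hZ1.trans e1)
  have s3 := SS_nonneg hW (hZ1.trans e2)
  have hfil : ∀ (X : Finset ℕ) (s : ℕ), X.filter (fun n => s ∣ n) =
      X.filter (fun n => n ≡ 0 [MOD s]) := by
    intro X s
    refine filter_congr fun n _ => ?_
    rw [Nat.modEq_zero_iff_dvd]
  have h := hABS (cls W c Z (Z ^ 3)) (cls W c (Z ^ 10) ((Z ^ 10) ^ 3))
    (cls W ((primorial W - 1) * c) (Z ^ 100) ((Z ^ 100) ^ 3)) (cls W 1 Z (Z ^ 3)) fw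
    (fun s => C * SS W Z / s.totient) (fun s => C * SS W (Z ^ 10) / s.totient)
    (fun s => C * SS W (Z ^ 100) / s.totient) (fun s => C * SS W Z / s.totient) t D b ht1 hD1
    htD fw_nonneg
    (fun s => ⟨by positivity, by positivity, by positivity, by positivity⟩)
    (fun s hs => by rw [hfil]; exact key Z s c 0 le_rfl (Or.inl hs) hc)
    (fun s r hs => key (Z ^ 10) s c r e1 (Or.inl hs) hc)
    (fun r => key (Z ^ 100) D _ r e2 (Or.inr rfl) (coprime_neg hc))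
    (fun s hs => by rw [hfil]; exact key Z s 1 0 le_rfl (Or.inl hs) (Nat.coprime_one_left _))
  have h2 : ∑ q ∈ (Box W c Z).filter (fun q => t ∣ HH q ∧ (D : ℤ) ∣ (bb q : ℤ) - b),
      fw (HH q) =
      ∑ q ∈ (cls W c Z (Z ^ 3) ×ˢ cls W c (Z ^ 10) ((Z ^ 10) ^ 3) ×ˢ
        cls W ((primorial W - 1) * c) (Z ^ 100) ((Z ^ 100) ^ 3) ×ˢ
        cls W 1 Z (Z ^ 3)).filter (fun q => Cop q ∧ t ∣ HH q ∧ (D : ℤ) ∣ (bb q : ℤ) - b),
          fw q.1 * fw q.2.1 * fw q.2.2.1 * fw q.2.2.2 := by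
    unfold Box BoxAll
    rw [filter_filter]
    refine sum_congr rfl fun q hq => ?_
    simp only [mem_filter, mem_product, cls, mem_Ioc] at hq
    obtain ⟨⟨⟨⟨x1, -⟩, -⟩, ⟨⟨u1, -⟩, -⟩, ⟨⟨v1, -⟩, -⟩, ⟨⟨k1, -⟩, -⟩⟩, hcop, -⟩ := hq
    exact fw_HH hcop (by omega) (by omega) (by omega) (by omega)
  rw [h2]
  refine h.trans (tuple_bound t _ _ (by positivity) fun s hs hst => ?_)
  have h3 := tot_HH hs
  rw [hst] at h3
  rw [h3]
  push_cast
  apply le_of_eq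
  rw [div_mul_div_comm, div_mul_div_comm, div_mul_div_comm]
  congr 1 <;> ring

end aux

theorem term (hABS : AbsStmt) (hABT : AbtStmt) (hAP : ApsumStmt) (hCL : ClasslowStmt) :
    TermStmt := by
  obtain ⟨C, hC, hap⟩ := hAP
  obtain ⟨c0, hc0, hcl⟩ := hCL
  refine ⟨(C / c0) ^ 8, by positivity, fun W hW => ?_⟩
  obtain ⟨Y1, hap1⟩ := hap W 81 hW
  obtain ⟨Y2, hcl2⟩ := hcl W hW
  obtain ⟨Z3, hZ3⟩ := exists_TZ
  refine ⟨Y1 + Y2 + Z3 + 3, fun Z c t d hZ hc ht1 htT hd1 hdT hrt hrd => ?_⟩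
  have hTZ := hZ3 Z (by omega)
  have hZ1 : 1 ≤ Z := by omega
  have hD1 : 1 ≤ t.lcm d := Nat.pos_of_ne_zero (Nat.lcm_ne_zero (by omega) (by omega))
  have htD : t ∣ t.lcm d := Nat.dvd_lcm_left _ _
  have hDT : t.lcm d ≤ TZ Z * TZ Z :=
    (Nat.le_of_dvd (Nat.mul_pos (by omega) (by omega)) (Nat.lcm_dvd_mul t d)).trans
      (Nat.mul_le_mul htT hdT)
  have key : ∀ Y s a r : ℕ, Z ≤ Y → s ∣ t ∨ s = t.lcm d → a.Coprime (primorial W) →
      ∑ n ∈ (cls W a Y (Y ^ 3)).filter (fun n => n ≡ r [MOD s]), fw n ≤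
        C * SS W Y / s.totient := by
    intro Y s a r hY hs ha
    have hsD : s ∣ t.lcm d := by
      rcases hs with hs | hs
      · exact hs.trans htD
      · rw [hs]
    have hs1 : 1 ≤ s := Nat.pos_of_dvd_of_pos hsD (by omega)
    have hsT : s ≤ TZ Z * TZ Z := (Nat.le_of_dvd (by omega) hsD).trans hDT
    have hsr : Rgh W s := rgh_dvd (rgh_lcm hrt hrd) hsD
    refine hap1 Y s a r (by omega) hs1 ?_ (coprime_of_rgh hsr) ha
    have h1 : (s : ℝ) ≤ (TZ Z : ℝ) ^ 2 := by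
      rw [pow_two]
      exact_mod_cast hsT
    refine h1.trans (hTZ.trans (pow_le_pow_left₀ (Real.log_nonneg (by exact_mod_cast hZ1)) ?_ 81))
    exact Real.log_le_log (by exact_mod_cast hZ1) (by exact_mod_cast hY)
  set S := SS W Z * SS W (Z ^ 10) * SS W (Z ^ 100) * SS W Z with hS
  have hout := outer hABT hW hZ1 hC hc ht1 (fun Y s a r hY hs ha => key Y s a r hY (Or.inl hs) ha)
  have hin := inner (D := t.lcm d) hABS hW hZ1 hC hc ht1 hD1 htD key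
  have hmass := mass_ge hc0 hW hcl2 (Z := Z) (c := c) (by omega) hZ1 hc
  rw [← hS] at hout hmass
  have e1 : Z ≤ Z ^ 10 := Nat.le_self_pow (by norm_num) Z
  have e2 : Z ≤ Z ^ 100 := Nat.le_self_pow (by norm_num) Z
  have s1 := SS_nonneg hW hZ1
  have s2 := SS_nonneg hW (hZ1.trans e1)
  have s3 := SS_nonneg hW (hZ1.trans e2)
  have hS0 : 0 ≤ S := by positivity
  set I1 := (t.divisors.card : ℝ) ^ 4 * (C ^ 4 * S / ((t.totient : ℝ) * (t.lcm d).totient)) with hI1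
  have hI10 : 0 ≤ I1 := by positivity
  -- the double sum
  have hpair : pairSum W c Z t d ≤
      (∑ q ∈ (Box W c Z).filter (fun q => t ∣ HH q), fw (HH q)) * I1 := by
    unfold pairSum
    rw [sum_filter, sum_product_right, sum_mul, sum_filter]
    refine sum_le_sum fun q' _ => ?_
    by_cases htq : t ∣ HH q'
    · rw [if_pos htq]
      refine le_trans ?_ (mul_le_mul_of_nonneg_left (hin (bb q' : ℤ)) (fw_nonneg _))
      rw [mul_sum, sum_filter]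
      refine sum_le_sum fun q _ => ?_
      by_cases h1 : t ∣ HH q ∧ ((t.lcm d : ℕ) : ℤ) ∣ (bb q : ℤ) - (bb q' : ℤ)
      · rw [if_pos h1]
        split_ifs
        · rw [mul_comm]
        · exact mul_nonneg (fw_nonneg _) (fw_nonneg _)
      · rw [if_neg h1, if_neg (fun h2 => h1 ⟨h2.2.1, h2.2.2.2⟩)]
    · rw [if_neg htq]
      refine (sum_eq_zero fun q _ => ?_).le
      rw [if_neg (fun h2 => htq h2.2.2.1)]
  refine hpair.trans ((mul_le_mul_of_nonneg_right hout hI10).trans ?_)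
  have hm2 : S ^ 2 ≤ mass W c Z ^ 2 / c0 ^ 8 := by
    rw [le_div_iff₀ (by positivity)]
    calc S ^ 2 * c0 ^ 8 = (c0 ^ 4 * S) ^ 2 := by ring
      _ ≤ mass W c Z ^ 2 := pow_le_pow_left₀ (by positivity) hmass 2
  calc (t.divisors.card : ℝ) ^ 4 * (C ^ 4 * S / t.totient) * I1
      = C ^ 8 * (t.divisors.card : ℝ) ^ 8 / ((t.totient : ℝ) ^ 2 * (t.lcm d).totient) * S ^ 2 := by
        rw [hI1]
        have f1 : (t.totient : ℝ) ≠ 0 := by
          exact_mod_cast (Nat.totient_pos.2 (by omega : 0 < t)).ne'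
        have f2 : ((t.lcm d).totient : ℝ) ≠ 0 := by
          exact_mod_cast (Nat.totient_pos.2 (by omega : 0 < t.lcm d)).ne'
        field_simp
    _ ≤ C ^ 8 * (t.divisors.card : ℝ) ^ 8 / ((t.totient : ℝ) ^ 2 * (t.lcm d).totient) *
        (mass W c Z ^ 2 / c0 ^ 8) := mul_le_mul_of_nonneg_left hm2 (by positivity)
    _ = _ := by
        rw [div_pow]
        field_simp

end Pool.Agent.Lib.MP_ba0fa5_ag.AA.H58
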